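import Mathlib

/-!
# Combinatorics of the configuration used for MP_8aa8ea_co

`A` is the (symmetric) incidence matrix of an `(11_3)` configuration.  We show that the only
automorphism of the configuration is the identity (closed walks of length 14 through a point
separate the points).
-/

set_option autoImplicit false
set_option maxRecDepth 100000

namespace Pool.Agent.H29R3.SelfDual

open Matrix

def A : Matrix (Fin 11) (Fin 11) ℕ := !![0, 1, 1, 1, 0, 0, 0, 0, 0, 0, 0; 1, 1, 0, 0, 0, 0, 0, 0, 0, 0, 1; 1, 0, 1, 0, 0, 0, 0, 0, 1, 0, 0; 1, 0, 0, 1, 0, 0, 0, 1, 0, 0, 0; 0, 0, 0, 0, 0, 1, 1, 1, 0, 0, 0; 0, 0, 0, 0, 1, 1, 0, 0, 1, 0, 0; 0, 0, 0, 0, 1, 0, 1, 0, 0, 1, 0; 0, 0, 0, 1, 1, 0, 0, 0, 0, 0, 1; 0, 0, 1, 0, 0, 1, 0, 0, 0, 1, 0; 0, 0, 0, 0, 0, 0, 1, 0, 1, 0, 1; 0, 1, 0, 0, 0, 0, 0, 1, 0, 1, 0]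
def S1 : Matrix (Fin 11) (Fin 11) ℕ := !![3, 1, 1, 1, 0, 0, 0, 1, 1, 0, 1; 1, 3, 1, 1, 0, 0, 0, 1, 0, 1, 1; 1, 1, 3, 1, 0, 1, 0, 0, 1, 1, 0; 1, 1, 1, 3, 1, 0, 0, 1, 0, 0, 1; 0, 0, 0, 1, 3, 1, 1, 0, 1, 1, 1; 0, 0, 1, 0, 1, 3, 1, 1, 1, 1, 0; 0, 0, 0, 0, 1, 1, 3, 1, 1, 1, 1; 1, 1, 0, 1, 0, 1, 1, 3, 0, 1, 0; 1, 0, 1, 0, 1, 1, 1, 0, 3, 0, 1; 0, 1, 1, 0, 1, 1, 1, 1, 0, 3, 0; 1, 1, 0, 1, 1, 0, 1, 0, 1, 0, 3]
def S2 : Matrix (Fin 11) (Fin 11) ℕ := !![15, 10, 9, 10, 3, 3, 3, 8, 8, 3, 9; 10, 15, 9, 10, 3, 3, 3, 9, 3, 8, 8; 9, 9, 15, 8, 4, 8, 3, 5, 8, 8, 4; 10, 10, 8, 15, 7, 3, 3, 8, 4, 4, 9; 3, 3, 4, 7, 15, 9, 10, 4, 9, 8, 9; 3, 3, 8, 3, 9, 15, 10, 8, 9, 10, 3; 3, 3, 3, 3, 10, 10, 15, 8, 9, 9, 8; 8, 9, 5, 8, 4, 8, 8, 15, 3, 9, 4; 8, 3, 8, 4, 9, 9, 9, 3, 15, 4, 9; 3, 8, 8, 4, 8, 10, 9, 9, 4, 15, 3; 9, 8, 4, 9, 9, 3, 8, 4, 9, 3, 15]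
def S3 : Matrix (Fin 11) (Fin 11) ℕ := !![99, 84, 76, 84, 45, 43, 43, 68, 66, 45, 76; 84, 99, 76, 84, 44, 44, 43, 76, 45, 66, 68; 76, 76, 95, 70, 51, 67, 46, 60, 67, 68, 53; 84, 84, 70, 97, 59, 43, 44, 69, 52, 51, 76; 45, 44, 51, 59, 97, 77, 84, 52, 77, 69, 74; 43, 44, 67, 43, 77, 99, 84, 68, 75, 83, 46; 43, 43, 46, 44, 84, 84, 99, 67, 76, 76, 67; 68, 76, 60, 69, 52, 68, 67, 95, 46, 76, 52; 66, 45, 67, 52, 77, 75, 76, 46, 97, 53, 75; 45, 66, 68, 51, 69, 83, 76, 76, 53, 97, 45; 76, 68, 53, 76, 74, 46, 67, 52, 75, 45, 97]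
def S4 : Matrix (Fin 11) (Fin 11) ℕ := !![751, 700, 649, 700, 492, 472, 472, 602, 580, 494, 649; 700, 751, 650, 699, 482, 482, 472, 648, 494, 580, 603; 649, 650, 709, 621, 524, 588, 504, 583, 589, 599, 545; 700, 699, 621, 733, 540, 474, 482, 610, 532, 522, 648; 492, 482, 524, 540, 731, 661, 698, 534, 659, 612, 628; 472, 482, 588, 474, 661, 751, 700, 600, 641, 688, 504; 472, 472, 504, 482, 698, 700, 751, 590, 651, 651, 590; 602, 648, 583, 610, 534, 600, 590, 709, 505, 646, 534; 580, 494, 589, 532, 659, 641, 651, 505, 727, 545, 638; 494, 580, 599, 522, 612, 688, 651, 646, 545, 729, 495; 649, 603, 545, 648, 628, 504, 590, 534, 638, 495, 727]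

lemma A_symm : Aᵀ = A := by decide +kernel
lemma A_mul : A * Aᵀ = S1 := by decide +kernel
lemma S1_mul : S1 * S1 = S2 := by decide +kernel
lemma S2_mul : S2 * S1 = S3 := by decide +kernel
lemma S2_sq : S2 * S2 = S4 := by decide +kernel

lemma diag_inj : ∀ i k : Fin 11, (S3 * S4) i i = (S3 * S4) k k → i = k := by decide +kernel

lemma A_01 : ∀ i j : Fin 11, A i j = 0 ∨ A i j = 1 := by decide +kernel

lemma cols_inj : ∀ j k : Fin 11, (∀ i, A i j = A i k) → j = k := by decide +kernel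

/-- The configuration has only the identical automorphism. -/
theorem rigid (α β : Fin 11 ≃ Fin 11) (h : ∀ i j, A (α i) (β j) = A i j) :
    (∀ i, α i = i) ∧ (∀ j, β j = j) := by
  have h1 : A.submatrix α β = A := by ext i j; exact h i j
  have h2 : (A * Aᵀ).submatrix α α = A * Aᵀ := by
    calc (A * Aᵀ).submatrix α α = A.submatrix α β * (Aᵀ).submatrix β α := by
          rw [Matrix.submatrix_mul_equiv]
      _ = A.submatrix α β * (A.submatrix α β)ᵀ := by rw [Matrix.transpose_submatrix]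
      _ = A * Aᵀ := by rw [h1]
  rw [A_mul] at h2
  have h3 : S2.submatrix α α = S2 := by
    rw [← S1_mul, ← Matrix.submatrix_mul_equiv S1 S1 α α α, h2]
  have h4 : S3.submatrix α α = S3 := by
    rw [← S2_mul, ← Matrix.submatrix_mul_equiv S2 S1 α α α, h2, h3]
  have h5 : S4.submatrix α α = S4 := by
    rw [← S2_sq, ← Matrix.submatrix_mul_equiv S2 S2 α α α, h3]
  have h6 : (S3 * S4).submatrix α α = S3 * S4 := by
    rw [← Matrix.submatrix_mul_equiv S3 S4 α α α, h4, h5]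
  have hα : ∀ i, α i = i := by
    intro i
    apply diag_inj
    have := congrFun (congrFun h6 i) i
    simpa using this
  refine ⟨hα, fun j => ?_⟩
  apply cols_inj
  intro i
  have := h i j
  rw [hα i] at this
  exact this

end Pool.Agent.H29R3.SelfDual
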