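import Mathlib

/-!
# Definitions for MP_8aa8ea_co: selfdual configurations and polarity in a circle
-/

set_option autoImplicit false

namespace Pool.Agent.H29R3.SelfDual

/-- The Euclidean plane. -/
abbrev Plane : Type := EuclideanSpace ℝ (Fin 2)

/-- A combinatorial configuration `(n_q)` with point set `Fin n` and line set `Fin n`;
`I i j` says that the point `i` and the line `j` are incident.  Every line contains exactly `q`
points, every point lies on exactly `q` lines, and two distinct points lie on at most one common
line. -/
structure IsConfiguration (n q : ℕ) (I : Fin n → Fin n → Prop) : Prop where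
  points_on_line : ∀ j, Nat.card {i // I i j} = q
  lines_through_point : ∀ i, Nat.card {j // I i j} = q
  linear : ∀ i i' j j', i ≠ i' → I i j → I i' j → I i j' → I i' j' → j = j'

/-- Incidence between elements of the union `P ∪ L` (`inl` = point, `inr` = line). -/
def Incident {n : ℕ} (I : Fin n → Fin n → Prop) : Fin n ⊕ Fin n → Fin n ⊕ Fin n → Prop
  | Sum.inl i, Sum.inr j => I i j
  | Sum.inr j, Sum.inl i => I i j
  | _, _ => False

/-- A selfduality: a bijection of `P ∪ L` onto itself mapping `P` onto `L` and `L` onto `P` and
preserving incidence. -/
structure IsSelfduality {n : ℕ} (I : Fin n → Fin n → Prop)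
    (δ : Equiv.Perm (Fin n ⊕ Fin n)) : Prop where
  points_to_lines : δ '' Set.range Sum.inl = Set.range Sum.inr
  lines_to_points : δ '' Set.range Sum.inr = Set.range Sum.inl
  incidence : ∀ x y, Incident I (δ x) (δ y) ↔ Incident I x y

/-- The rank of a selfdual configuration: the least order of a selfduality. -/
noncomputable def rank {n : ℕ} (I : Fin n → Fin n → Prop) : ℕ :=
  sInf {m | ∃ δ : Equiv.Perm (Fin n ⊕ Fin n), IsSelfduality I δ ∧ orderOf δ = m}

/-- A straight line of the plane. -/
def IsStraightLine (ℓ : Set Plane) : Prop :=
  ∃ a b : Plane, b ≠ 0 ∧ ℓ = {x | ∃ t : ℝ, x = a + t • b}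

/-- `(P, L)` is a geometric configuration (points and straight lines of the Euclidean plane)
realizing the combinatorial configuration `I`. -/
structure Realizes {n : ℕ} (I : Fin n → Fin n → Prop) (P : Fin n → Plane) (L : Fin n → Set Plane) :
    Prop where
  points_injective : Function.Injective P
  lines_injective : Function.Injective L
  straight : ∀ j, IsStraightLine (L j)
  incidence : ∀ i j, P i ∈ L j ↔ I i j

/-- The polar line of the point `x` in the circle with centre `c` and radius `r`
(for `x ≠ c`, `r > 0`). -/
def polarLine (c : Plane) (r : ℝ) (x : Plane) : Set Plane := {y | inner ℝ (y - c) (x - c) = r ^ 2}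

/-- `x` is the pole of the line `ℓ` in the circle with centre `c` and radius `r`. -/
def IsPole (c : Plane) (r : ℝ) (x : Plane) (ℓ : Set Plane) : Prop := x ≠ c ∧ polarLine c r x = ℓ

/-- The geometric configuration `(P, L)` has a polar in the circle with centre `c` and radius `r`
(no point is `c`, no line passes through `c`), and this polar, whose points are the poles `Q j` of
the lines `L j` and whose lines are the polars of the points `P i`, is congruent to `(P, L)`:
an isometry of the plane maps its points onto the points `P` and its lines onto the lines `L`. -/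
def CongruentToPolar {n : ℕ} (P : Fin n → Plane) (L : Fin n → Set Plane) (c : Plane) (r : ℝ) :
    Prop :=
  (∀ i, P i ≠ c) ∧ (∀ j, c ∉ L j) ∧
    ∃ Q : Fin n → Plane, (∀ j, IsPole c r (Q j) (L j)) ∧
      ∃ σ : Plane ≃ᵢ Plane, σ '' Set.range Q = Set.range P ∧
        (Set.range fun i => σ '' polarLine c r (P i)) = Set.range L

end Pool.Agent.H29R3.SelfDual
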