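import Pool.Agent.H29R3.SelfDual.Imposs

set_option autoImplicit false
set_option maxRecDepth 100000

namespace Pool.Agent.H29R3.SelfDual

/-- x-coordinates of the points -/
def px : Fin 11 → ℚ := ![-23/41, -1, -1/31, 2, 1, 1, 86/73, -1, 1, -1, 211/185]
/-- y-coordinates of the points -/
def py : Fin 11 → ℚ := ![-6/41, -1/3, -17/31, -1, 133/159, 1, 159/146, 0, -4/3, -2, 107/185]
/-- the lines are `la x + lb y + lc = 0` -/
def la : Fin 11 → ℚ := ![2, 23, 73, 1, 1, 1, -451, -292, 3, 1061, 1]
def lb : Fin 11 → ℚ := ![9, -54, 96, 3, -2, 0, 318, -159, -2, -78, 0]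
def lc : Fin 11 → ℚ := ![5, 5, 55, 1, 1, -1, 185, 425, -1, -1165, 1]

lemma inc_rat : ∀ i j : Fin 11, la j * px i + lb j * py i + lc j = 0 ↔ Inc i j := by
  decide +kernel

lemma pts_rat : ∀ i j : Fin 11, px i = px j → py i = py j → i = j := by decide +kernel

lemma nondeg_rat : ∀ j : Fin 11, la j * la j + lb j * lb j ≠ 0 := by decide +kernel

noncomputable def PP (i : Fin 11) : Plane := !₂[(px i : ℝ), (py i : ℝ)]
def LL (j : Fin 11) : Set Plane := {x | (la j : ℝ) * x 0 + (lb j : ℝ) * x 1 + (lc j : ℝ) = 0}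

lemma inc_real (i j : Fin 11) : PP i ∈ LL j ↔ Inc i j := by
  unfold LL PP
  rw [← inc_rat i j, Set.mem_ofPred_eq]
  simp only [Matrix.cons_val_zero, Matrix.cons_val_one]
  norm_cast

lemma PP_inj : Function.Injective PP := by
  intro i j h
  apply pts_rat
  · have := congrFun (congrArg (fun x : Plane => (x : Fin 2 → ℝ)) h) 0
    simpa [PP] using this
  · have := congrFun (congrArg (fun x : Plane => (x : Fin 2 → ℝ)) h) 1
    simpa [PP] using this

lemma LL_inj : Function.Injective LL := by
  intro j k h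
  apply cols_inj
  intro i
  have h1 := inc_real i j
  have h2 := inc_real i k
  rw [h] at h1
  have h3 : Inc i j ↔ Inc i k := by rw [← h1, ← h2]
  unfold Inc at h3
  rcases A_01 i j with a | a <;> rcases A_01 i k with b | b <;> simp_all

lemma LL_straight (j : Fin 11) : IsStraightLine (LL j) := by
  have hd : (la j : ℝ) * la j + (lb j : ℝ) * lb j ≠ 0 := by
    have := nondeg_rat j
    exact_mod_cast this
  set a : ℝ := (la j : ℝ)
  set b : ℝ := (lb j : ℝ)
  set c : ℝ := (lc j : ℝ)
  set d : ℝ := a * a + b * b with hdd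
  refine ⟨!₂[-(a * c) / d, -(b * c) / d], !₂[-b, a], ?_, ?_⟩
  · intro h
    have h0 := congrFun (congrArg (fun x : Plane => (x : Fin 2 → ℝ)) h) 0
    have h1 := congrFun (congrArg (fun x : Plane => (x : Fin 2 → ℝ)) h) 1
    simp at h0 h1
    apply hd; rw [hdd, h0, h1]; ring
  · ext x
    unfold LL
    rw [Set.mem_ofPred_eq, Set.mem_ofPred_eq]
    constructor
    · intro h
      refine ⟨(-b * x 0 + a * x 1) / d, ?_⟩
      ext k
      fin_cases k
      · simp
        field_simp
        have h' : a * x 0 + b * x 1 + c = 0 := h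
        rw [hdd]
        linear_combination a * h'
      · simp
        field_simp
        have h' : a * x 0 + b * x 1 + c = 0 := h
        rw [hdd]
        linear_combination b * h'
    · rintro ⟨t, rfl⟩
      simp
      change a * (-(a * c) / d + -(t * b)) + b * (-(b * c) / d + t * a) + c = 0
      field_simp
      rw [hdd]; ring

theorem realizes : Realizes Inc PP LL :=
  ⟨PP_inj, LL_inj, LL_straight, inc_real⟩

theorem isConfiguration : IsConfiguration 11 3 Inc where
  points_on_line := by
    intro j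
    rw [Nat.card_eq_fintype_card]
    revert j; decide +kernel
  lines_through_point := by
    intro j
    rw [Nat.card_eq_fintype_card]
    revert j; decide +kernel
  linear := by decide +kernel

/-- the selfduality of order two exchanging the point `i` and the line `i` -/
def swap : Equiv.Perm (Fin 11 ⊕ Fin 11) := Equiv.sumComm (Fin 11) (Fin 11)

theorem swap_selfduality : IsSelfduality Inc swap where
  points_to_lines := by
    ext x; constructor
    · rintro ⟨_, ⟨i, rfl⟩, rfl⟩; exact ⟨i, rfl⟩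
    · rintro ⟨i, rfl⟩; exact ⟨Sum.inl i, ⟨i, rfl⟩, rfl⟩
  lines_to_points := by
    ext x; constructor
    · rintro ⟨_, ⟨i, rfl⟩, rfl⟩; exact ⟨i, rfl⟩
    · rintro ⟨i, rfl⟩; exact ⟨Sum.inr i, ⟨i, rfl⟩, rfl⟩
  incidence := by
    rintro (i | i) (j | j)
    · exact Iff.rfl
    · exact Inc_symm j i
    · exact Inc_symm i j
    · exact Iff.rfl

theorem swap_sq : swap * swap = 1 := by
  ext x; rcases x with i | i <;> rfl

theorem rank_eq : rank Inc = 2 := by
  have h2 : 2 ∈ {m | ∃ δ : Equiv.Perm (Fin 11 ⊕ Fin 11), IsSelfduality Inc δ ∧ orderOf δ = m} := by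
    refine ⟨swap, swap_selfduality, orderOf_eq_prime (by rw [sq]; exact swap_sq) ?_⟩
    intro h
    have := congrArg (fun e : Equiv.Perm (Fin 11 ⊕ Fin 11) => e (Sum.inl 0)) h
    simp [swap] at this
  apply le_antisymm
  · exact Nat.sInf_le h2
  · have hmem := Nat.sInf_mem (⟨2, h2⟩ : Set.Nonempty _)
    obtain ⟨δ, hδ, ho⟩ := hmem
    unfold rank
    rw [← ho]
    have hpos : 0 < orderOf δ := orderOf_pos δ
    have hne : orderOf δ ≠ 1 := by
      intro h
      rw [orderOf_eq_one_iff] at h
      have h1 := hδ.points_to_lines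
      rw [h] at h1
      have : (Sum.inl 0 : Fin 11 ⊕ Fin 11) ∈ Set.range (Sum.inr : Fin 11 → Fin 11 ⊕ Fin 11) := by
        rw [← h1]; exact ⟨Sum.inl 0, ⟨0, rfl⟩, rfl⟩
      obtain ⟨k, hk⟩ := this
      cases hk
    omega

end Pool.Agent.H29R3.SelfDual
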