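import Mathlib
import Pool.Agent.H29R3.SelfDual.Real

/-!
# MP_8aa8ea_co, Q1: a negative answer

There is a geometric configuration `(11_3)` which is selfdual of rank 2 and no realization of which
is congruent to its polar in any circle.

Idea.  The configuration has a symmetric incidence matrix `A` (so exchanging the point `i` with the
line `i` is a selfduality of order 2), it has no automorphism except the identity, and the three
points `1, 2, 3` of the line `0` are absolute (`A i i = 1`).  If a realization is congruent to
its polar in a circle, then polarity followed by the isometry is a correlation of the plane that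
must map the point `i` to the line `i`; comparing the two descriptions of the lines shows that the
corresponding bi-affine form takes equal values at `(P 1, P 2)` and `(P 2, P 1)`, and then the three
collinear absolute points force this value to be `0`, that is, the point `1` lies on the line `2`,
which is not the case.

The definitions are in `Pool/Agent/H29R3/SelfDual/Defs.lean`.
-/

set_option autoImplicit false

namespace Pool.Agent.H29R3.SelfDual.ElevenThree

open Pool.Agent.H29R3.SelfDual

/-- There is a combinatorial configuration `(11_3)` which has a geometric realization and is
selfdual of rank 2, but no geometric realization of it has a polar in some circle that is congruent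
to it. -/
theorem result : ∃ I : Fin 11 → Fin 11 → Prop,
    IsConfiguration 11 3 I ∧ (∃ P L, Realizes I P L) ∧
    (∃ δ : Equiv.Perm (Fin 11 ⊕ Fin 11), IsSelfduality I δ ∧ δ * δ = 1) ∧ rank I = 2 ∧
    ¬ ∃ (P : Fin 11 → Plane) (L : Fin 11 → Set Plane) (c : Plane) (r : ℝ),
      Realizes I P L ∧ 0 < r ∧ CongruentToPolar P L c r :=
  ⟨Inc, isConfiguration, ⟨PP, LL, realizes⟩, ⟨swap, swap_selfduality, swap_sq⟩, rank_eq,
    fun ⟨P, L, c, r, hR, _, h⟩ => impossible P L hR c r h⟩

end Pool.Agent.H29R3.SelfDual.ElevenThree
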