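import Pool.Agent.H29R3.SelfDual.Defs
import Pool.Agent.H29R3.SelfDual.Comb

set_option autoImplicit false
set_option maxRecDepth 100000

namespace Pool.Agent.H29R3.SelfDual

/-- The incidence relation of the configuration. -/
def Inc : Fin 11 → Fin 11 → Prop := fun i j => A i j = 1

instance (i j : Fin 11) : Decidable (Inc i j) := by unfold Inc; infer_instance

lemma Inc_symm : ∀ i j : Fin 11, Inc i j ↔ Inc j i := by
  intro i j
  have := congrFun (congrFun A_symm i) j
  rw [Matrix.transpose_apply] at this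
  unfold Inc; rw [this]


theorem rigid' (α β : Fin 11 ≃ Fin 11) (h : ∀ i j, Inc (α i) (β j) ↔ Inc i j) :
    (∀ i, α i = i) ∧ (∀ j, β j = j) := by
  apply rigid
  intro i j
  have := h i j
  unfold Inc at this
  rcases A_01 (α i) (β j) with h1 | h1 <;> rcases A_01 i j with h2 | h2 <;> simp_all

/-- Two functions on the plane that are affine on every line and have the same zeros are
proportional. -/
lemma prop_of_zeros (f g : Plane → ℝ)
    (hf : ∀ x y (t : ℝ), f (x + t • (y - x)) = f x + t * (f y - f x))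
    (hg : ∀ x y (t : ℝ), g (x + t • (y - x)) = g x + t * (g y - g x))
    (hz : ∀ z, f z = 0 ↔ g z = 0) (z0 : Plane) (h0 : g z0 = 0) (z1 : Plane) (h1 : g z1 ≠ 0) :
    ∃ l : ℝ, ∀ z, f z = l * g z := by
  refine ⟨f z1 / g z1, fun z => ?_⟩
  have f0 : f z0 = 0 := (hz z0).mpr h0
  -- the statement for all points with `g z ≠ g z1`
  have main : ∀ w, g w ≠ g z1 → f w = f z1 / g z1 * g w := by
    intro w hw
    have hd : g z1 - g w ≠ 0 := fun h => hw (by linarith)
    set t : ℝ := g z1 / (g z1 - g w) with ht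
    have e1 : g (z1 + t • (w - z1)) = 0 := by
      rw [hg, ht]; field_simp; ring
    have e2 := (hz _).mpr e1
    rw [hf, ht] at e2
    have e3 : f z1 * (g z1 - g w) + g z1 * (f w - f z1) = 0 := by
      have := congrArg (fun s => s * (g z1 - g w)) e2
      simp only [zero_mul] at this
      field_simp at this
      linarith
    field_simp
    linarith
  by_cases hc : g z = g z1
  · have e1 : g (z0 + (1/2 : ℝ) • (z - z0)) = g z / 2 := by rw [hg, h0]; ring
    have e2 : f (z0 + (1/2 : ℝ) • (z - z0)) = f z / 2 := by rw [hf, f0]; ring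
    have e3 := main (z0 + (1/2 : ℝ) • (z - z0)) (by
      rw [e1, hc]; intro h; apply h1; linarith)
    rw [e1, e2] at e3
    linarith
  · exact main z hc

theorem impossible (P : Fin 11 → Plane) (L : Fin 11 → Set Plane) (hR : Realizes Inc P L)
    (c : Plane) (r : ℝ) : ¬ CongruentToPolar P L c r := by
  rintro ⟨-, -, Q, hQ, σ, hσP, hσL⟩
  -- choose α, β
  have hα : ∀ i, ∃ j, L j = σ '' polarLine c r (P i) := by
    intro i
    have : σ '' polarLine c r (P i) ∈ Set.range L := by rw [← hσL]; exact ⟨i, rfl⟩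
    obtain ⟨j, hj⟩ := this
    exact ⟨j, hj⟩
  choose α hα using hα
  have hβ : ∀ j, ∃ i, P i = σ (Q j) := by
    intro j
    have : σ (Q j) ∈ Set.range P := by rw [← hσP]; exact ⟨Q j, ⟨j, rfl⟩, rfl⟩
    obtain ⟨i, hi⟩ := this
    exact ⟨i, hi⟩
  choose β hβ using hβ
  have hαs : Function.Surjective α := by
    intro j
    have : L j ∈ Set.range fun i => σ '' polarLine c r (P i) := by rw [hσL]; exact ⟨j, rfl⟩
    obtain ⟨i, hi⟩ := this
    refine ⟨i, hR.lines_injective ?_⟩
    rw [hα i]; exact hi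
  have hβs : Function.Surjective β := by
    intro i
    have : P i ∈ σ '' Set.range Q := by rw [hσP]; exact ⟨i, rfl⟩
    obtain ⟨_, ⟨j, rfl⟩, hj⟩ := this
    refine ⟨j, hR.points_injective ?_⟩
    rw [hβ j]; exact hj
  let α' : Fin 11 ≃ Fin 11 := Equiv.ofBijective α (Finite.injective_iff_surjective.mpr hαs |>.bijective_of_finite)
  let β' : Fin 11 ≃ Fin 11 := Equiv.ofBijective β (Finite.injective_iff_surjective.mpr hβs |>.bijective_of_finite)
  have hinc : ∀ i j, Inc (β j) (α i) ↔ Inc i j := by
    intro i j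
    rw [← hR.incidence, ← hR.incidence, hα i, hβ j, ← (hQ j).2]
    rw [Function.Injective.mem_set_image σ.injective]
    unfold polarLine
    rw [Set.mem_ofPred_eq, Set.mem_ofPred_eq, real_inner_comm]
  obtain ⟨ha, hb⟩ := rigid' α' β' (by
    intro i j
    rw [Inc_symm]
    exact hinc i j)
  have ha : ∀ i, α i = i := ha
  have hb : ∀ j, β j = j := hb
  -- the affine inverse
  set s : Plane ≃ᵢ Plane := σ.symm with hs
  have hsQ : ∀ j, Q j = s (P j) := by
    intro j
    have := hβ j
    rw [hb j] at this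
    rw [this, hs]; simp
  have hL1 : ∀ j z, z ∈ L j ↔ inner ℝ (s z - c) (P j - c) = r ^ 2 := by
    intro j z
    have e := hα j
    rw [ha j] at e
    rw [e]
    constructor
    · rintro ⟨y, hy, rfl⟩
      have : s (σ y) = y := by simp [hs]
      rw [this]; exact hy
    · intro h
      exact ⟨s z, h, by simp [hs]⟩
  have hL2 : ∀ j z, z ∈ L j ↔ inner ℝ (z - c) (s (P j) - c) = r ^ 2 := by
    intro j z
    rw [← (hQ j).2, hsQ j]; rfl
  -- affinity of s
  have hsaff : ∀ x y (t : ℝ), s (x + t • (y - x)) = s x + t • (s y - s x) := by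
    intro x y t
    let s' : Plane ≃ᵃⁱ[ℝ] Plane := s.toRealAffineIsometryEquiv
    have hs' : ∀ z, s z = s' z := fun z => rfl
    have e := AffineMap.apply_lineMap (s'.toAffineEquiv.toAffineMap) x y t
    rw [AffineMap.lineMap_apply_module', AffineMap.lineMap_apply_module'] at e
    rw [hs', hs', hs']
    have e1 : x + t • (y - x) = t • (y - x) + x := add_comm _ _
    rw [e1]
    have e2 : s' x + t • (s' y - s' x) = t • (s' y - s' x) + s' x := add_comm _ _
    rw [e2]
    exact e
  -- the bilinear form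
  set B : Plane → Plane → ℝ := fun x y => inner ℝ (s x - c) (y - c) - r ^ 2 with hB
  have hBl : ∀ x x' y (t : ℝ), B (x + t • (x' - x)) y = B x y + t * (B x' y - B x y) := by
    intro x x' y t
    simp only [hB]
    rw [hsaff]
    have : s x + t • (s x' - s x) - c = (s x - c) + t • ((s x' - c) - (s x - c)) := by
      module
    rw [this, inner_add_left, inner_smul_left, inner_sub_left (s x' - c) (s x - c)]
    simp only [conj_trivial]
    ring
  have hBr : ∀ x y y' (t : ℝ), B x (y + t • (y' - y)) = B x y + t * (B x y' - B x y) := by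
    intro x y y' t
    simp only [hB]
    have : y + t • (y' - y) - c = (y - c) + t • ((y' - c) - (y - c)) := by
      module
    rw [this, inner_add_right, inner_smul_right, inner_sub_right (s x - c) (y' - c) (y - c)]
    ring
  have hB1 : ∀ z j, B z (P j) = 0 ↔ z ∈ L j := by
    intro z j
    rw [hL1]; simp only [hB]; exact sub_eq_zero
  have hB2 : ∀ z j, B (P j) z = 0 ↔ z ∈ L j := by
    intro z j
    rw [hL2, real_inner_comm]; simp only [hB]; exact sub_eq_zero
  have hprop : ∀ j, ∃ l : ℝ, ∀ z, B z (P j) = l * B (P j) z := by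
    intro j
    -- a point on the line and one off it
    have hex : (∃ i, Inc i j) ∧ (∃ i, ¬ Inc i j) := by
      revert j; decide +kernel
    obtain ⟨⟨i0, h0⟩, ⟨i1, h1⟩⟩ := hex
    apply prop_of_zeros (fun z => B z (P j)) (fun z => B (P j) z) (fun x y t => hBl x y _ t)
      (fun x y t => hBr _ x y t) (fun z => by rw [hB1, hB2]) (P i0)
      (by rw [hB2, hR.incidence]; exact h0) (P i1) (by rw [ne_eq, hB2, hR.incidence]; exact h1)
  choose l hl using hprop
  have hBP : ∀ i j, B (P i) (P j) = 0 ↔ Inc i j := by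
    intro i j; rw [hB1, hR.incidence]
  have i44 : ¬ Inc 4 4 := by decide +kernel
  have i14 : ¬ Inc 1 4 := by decide +kernel
  have i12 : ¬ Inc 1 2 := by decide +kernel
  have i11 : Inc 1 1 := by decide +kernel
  have i22 : Inc 2 2 := by decide +kernel
  have i33 : Inc 3 3 := by decide +kernel
  have i10 : Inc 1 0 := by decide +kernel
  have i20 : Inc 2 0 := by decide +kernel
  have i30 : Inc 3 0 := by decide +kernel
  -- l 4 = 1
  have l4 : l 4 = 1 := by
    have h := hl 4 (P 4)
    have hne : B (P 4) (P 4) ≠ 0 := fun h => i44 ((hBP 4 4).mp h)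
    have : (l 4 - 1) * B (P 4) (P 4) = 0 := by linarith
    rcases mul_eq_zero.mp this with h' | h'
    · linarith
    · exact absurd h' hne
  have l1 : l 1 = 1 := by
    have h := hl 4 (P 1)
    have h' := hl 1 (P 4)
    rw [l4, one_mul] at h
    have hne : B (P 1) (P 4) ≠ 0 := fun h => i14 ((hBP 1 4).mp h)
    rw [← h] at h'
    have : (l 1 - 1) * B (P 1) (P 4) = 0 := by linarith
    rcases mul_eq_zero.mp this with h' | h'
    · linarith
    · exact absurd h' hne
  have b21 : B (P 2) (P 1) = B (P 1) (P 2) := by rw [hl 1 (P 2), l1, one_mul]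
  have b11 : B (P 1) (P 1) = 0 := (hBP 1 1).mpr i11
  have b22 : B (P 2) (P 2) = 0 := (hBP 2 2).mpr i22
  have b33 : B (P 3) (P 3) = 0 := (hBP 3 3).mpr i33
  have b12 : B (P 1) (P 2) ≠ 0 := fun h => i12 ((hBP 1 2).mp h)
  -- collinearity
  obtain ⟨a, b, hb0, hL0⟩ := hR.straight 0
  have m1 : P 1 ∈ L 0 := (hR.incidence 1 0).mpr i10
  have m2 : P 2 ∈ L 0 := (hR.incidence 2 0).mpr i20
  have m3 : P 3 ∈ L 0 := (hR.incidence 3 0).mpr i30
  rw [hL0] at m1 m2 m3
  obtain ⟨t1, e1⟩ := m1
  obtain ⟨t2, e2⟩ := m2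
  obtain ⟨t3, e3⟩ := m3
  have n12 : P 1 ≠ P 2 := fun h => absurd (hR.points_injective h) (by decide)
  have n13 : P 1 ≠ P 3 := fun h => absurd (hR.points_injective h) (by decide)
  have n23 : P 2 ≠ P 3 := fun h => absurd (hR.points_injective h) (by decide)
  have d12 : t2 - t1 ≠ 0 := by
    intro h; apply n12; rw [e1, e2]; congr 2; linarith
  set t : ℝ := (t3 - t1) / (t2 - t1) with ht
  have hP3 : P 3 = P 1 + t • (P 2 - P 1) := by
    rw [e1, e2, e3]
    have : t3 = t1 + t * (t2 - t1) := by rw [ht]; field_simp; ring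
    rw [this]; module
  have hq : B (P 3) (P 3) = 2 * t * (1 - t) * B (P 1) (P 2) := by
    conv_lhs => rw [hP3]
    rw [hBl, hBr, hBr, b11, b22, b21]; ring
  rw [b33] at hq
  have h3 : t = 0 ∨ t = 1 := by
    by_contra hcon
    push Not at hcon
    have : 2 * t * (1 - t) * B (P 1) (P 2) ≠ 0 := by
      refine mul_ne_zero (mul_ne_zero (mul_ne_zero two_ne_zero hcon.1) ?_) b12
      intro h; apply hcon.2; linarith
    exact this hq.symm
  rcases h3 with h3 | h3
  · apply n13; rw [hP3, h3]; simp
  · apply n23; rw [hP3, h3]; simp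

end Pool.Agent.H29R3.SelfDual
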